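import Pool.Agent.Helper81.CPY.Clo
import Pool.Agent.Helper84.MT.Fun
import Pool.Agent.Helper36.AM.St

/-! COPIES AND THE FINEST RESOLUTION (messages 32031, 33016 of helper15, 33089 of helper2). If two types are
independent given `R₀`, every label which has no leak at the windows of the types has no leak at `R₀` (double Markov). So
for a system with a copy of one type given the cells of the point, the labels of a window are exactly the labels without
leak at the windows of the types. -/

set_option autoImplicit false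

namespace Pool.Agent.Helper17.CPB

open Finset Filter Topology Matrix Pool.Agent.Helper69.RK Pool.Agent.Helper31.EC Pool.Agent.Helper31.EC.Sp
open Pool.Agent.Helper40.EL Pool.Agent.Helper89.LX Pool.Agent.Helper84.MT Pool.Agent.Helper36.AM
open Pool.Agent.Helper3.LF (Mon)
open Pool.Agent.Helper38.NSL (NI I_le_uncond PLe_pull)

noncomputable section

variable {S T : Sp} {M D : ℕ} {E : ℕ → ℕ} {ι κ : Type}

/-! ### double Markov -/

/-- the leak at `z` is at most the leaks at `x` and at `y` and the information of `x` about `y` given `z` -/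
theorem leak_three {F : FSp} (l : FLab F) (x y z : FL F) : l.leak z ≤ l.leak x + l.leak y + I x y z := by
  have h1 : l.leak z ≤ I l.v l.p.top (l.p.map z ⊔ l.p.map x) + I l.v (l.p.map x) (l.p.map z) :=
    I_le_uncond l.v l.p.top (l.p.map z) (l.p.map x)
  have h2 : I (l.p.map x) l.v (l.p.map z) ≤ I (l.p.map x) l.v (l.p.map z ⊔ l.p.map y) +
      I (l.p.map x) (l.p.map y) (l.p.map z) := I_le_uncond (l.p.map x) l.v (l.p.map z) (l.p.map y)
  have h3 : I l.v l.p.top (l.p.map z ⊔ l.p.map x) ≤ l.leak x := by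
    rw [← l.p.map_sup]
    exact l.leak_anti le_sup_right
  have h4 : I (l.p.map x) l.v (l.p.map z ⊔ l.p.map y) ≤ l.leak y := by
    have h5 : I l.v (l.p.map x) (l.p.map z ⊔ l.p.map y) ≤ I l.v l.p.top (l.p.map z ⊔ l.p.map y) :=
      I_mono_right ((l.p.map_le_top x).trans le_sup_left)
    have h6 : I l.v l.p.top (l.p.map z ⊔ l.p.map y) ≤ l.leak y := by
      rw [← l.p.map_sup]
      exact l.leak_anti le_sup_right
    rw [I_comm]
    exact h5.trans h6
  have h7 : I (l.p.map x) (l.p.map y) (l.p.map z) = I x y z := l.p.I_map x y z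
  have h8 : I l.v (l.p.map x) (l.p.map z) = I (l.p.map x) l.v (l.p.map z) := I_comm _ _ _
  linarith

/-- DOUBLE MARKOV: a label without leak at `A` and at `B`, where `A` and `B` are independent given `C`, has no leak at
`C` -/
theorem nul_leak {l : Lab S} {A B C : Part S} (h : NI A B C) (hA : Nul S (fun k => (l k).leak (A k)))
    (hB : Nul S (fun k => (l k).leak (B k))) : Nul S (fun k => (l k).leak (C k)) := by
  have h1 : Nul S (fun k => (l k).leak (A k) + (l k).leak (B k) + I (A k) (B k) (C k)) :=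
    Nul.add (Nul.add hA hB) h
  exact Nul.of_le h1 (Eventually.of_forall fun k => (l k).leak_nonneg _)
    (Eventually.of_forall fun k => leak_three (l k) (A k) (B k) (C k))

/-! ### systems with two types which are independent given `C` -/

/-- TWO TYPES ARE INDEPENDENT GIVEN `C` -/
def Tw (s : MSys S M E ι) (C : Part S) : Prop := ∃ i j, NI ((s.lf i).win 1) ((s.lf j).win 1) C

/-- the labels of the types of the window `c` -/
def TyL (s : MSys S M E ι) (c : ℝ) (l : Lab S) : Prop := ∀ i, Nul S (fun k => (l k).leak ((s.lf i).win c k))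

theorem leak_of_PLe {l : Lab S} {A B : Part S} (h : PLe A B) (hl : Nul S (fun k => (l k).leak (A k))) :
    Nul S (fun k => (l k).leak (B k)) := by
  have h1 : l.DMf (fun _ : Unit => A) := fun _ => hl
  have h2 : l.DMf (fun _ : Unit => B) := Lab.DMf.mono h1 fun i => ⟨i, h⟩
  exact h2 ()

theorem TyL.mono {s : MSys S M E ι} {a b : ℝ} (hab : a ≤ b) {l : Lab S} (h : TyL s a l) : TyL s b l :=
  fun i => leak_of_PLe ((s.lf i).win_mono hab) (h i)

/-- LABELS OF THE TYPES HAVE NO LEAK AT `C` -/
theorem Tw.leak {s : MSys S M E ι} {C : Part S} (h : Tw s C) {c : ℝ} (hc : c ≤ 1) {l : Lab S} (hl : TyL s c l) :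
    Nul S (fun k => (l k).leak (C k)) := by
  obtain ⟨i, j, hn⟩ := h
  exact nul_leak hn (hl.mono hc i) (hl.mono hc j)

/-- if `C` is the point: the labels of the types are the labels of the window -/
theorem Tw.dmc_iff {s : MSys S M E ι} (h : Tw s (pcd s.Q)) {c : ℝ} (hc : c ≤ 1) {l : Lab S} :
    s.DMc c l ↔ TyL s c l := by
  constructor
  · intro h1 i
    exact h1 (some i)
  · intro h1 i
    rcases i with _ | i
    · exact h.leak hc h1
    · exact h1 i

/-- coarser: enough that the two types are independent given something which knows ... finer conditions -/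
theorem Tw.pull {s : MSys S M E ι} {C : Part S} (h : Tw s C) (p : Pj T S) : Tw (s.pull p) (C.pull p) := by
  obtain ⟨i, j, hn⟩ := h
  refine ⟨i, j, ?_⟩
  have e1 : ((s.pull p).lf i).win 1 = ((s.lf i).win 1).pull p := win_pull p (s.lf i) 1
  have e2 : ((s.pull p).lf j).win 1 = ((s.lf j).win 1).pull p := win_pull p (s.lf j) 1
  rw [e1, e2]
  exact NI.pull hn p

/-- EVENTS OF EXTENSIONS -/
theorem Tw.im {s : MSys S M E ι} {C : Part S} (h : Tw s C) (p : Pj T S) (A : ∀ k, (T.F k).Ω → Prop)
    (hA : 0 < ul (T.pr A)) : Tw (s.im p A hA) (C.im p A) := by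
  obtain ⟨i, j, hn⟩ := h
  exact ⟨i, j, NI.im hn p A hA⟩

/-- more types -/
theorem Tw.union {s : MSys S M E ι} {C : Part S} (h : Tw s C) (l : κ → Leaf S s.Q E) : Tw (s.union l) C := by
  obtain ⟨i, j, hn⟩ := h
  exact ⟨Sum.inl i, Sum.inl j, hn⟩

/-- other indices -/
theorem Tw.ren {s : MSys S M E ι} {C : Part S} (h : Tw s C) {f : κ → ι} (hf : Function.Surjective f) :
    Tw (s.ren f) C := by
  obtain ⟨i, j, hn⟩ := h
  obtain ⟨a, rfl⟩ := hf i
  obtain ⟨b, rfl⟩ := hf j
  exact ⟨a, b, hn⟩

/-- THE SYSTEM WITH A COPY GIVEN THE CELLS OF THE POINT -/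
theorem tw_cpy (s : MSys S M E ι) (hC : Dtm s.Q (fun k ω => s.Q.cellv 1 k ω)) (l : κ → Leaf S s.Q E) (i : ι)
    (j : κ) : Tw (s.cpy (fun k ω => s.Q.cellv 1 k ω) hC l) (pcd (s.cpy (fun k ω => s.Q.cellv 1 k ω) hC l).Q) := by
  refine ⟨Sum.inl i, Sum.inr j, ?_⟩
  have e1 : ((s.cpy (fun k ω => s.Q.cellv 1 k ω) hC l).lf (Sum.inl i)).win 1 =
      ((s.lf i).win 1).pull (cpd (fun k ω => s.Q.cellv 1 k ω)).p1 := win_pull _ (s.lf i) 1
  have e2 : ((s.cpy (fun k ω => s.Q.cellv 1 k ω) hC l).lf (Sum.inr j)).win 1 =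
      ((l j).win 1).pull (cpd (fun k ω => s.Q.cellv 1 k ω)).p2 := (l j).cpy_win _ hC 1
  have e3 : pcd (s.cpy (fun k ω => s.Q.cellv 1 k ω) hC l).Q =
      (pcd s.Q).pull (cpd (fun k ω => s.Q.cellv 1 k ω)).p1 := pcd_pull _ s.Q
  rw [e1, e2, e3]
  refine NI.of_le (Nul_zero _) (Eventually.of_forall fun k => ?_)
  exact (cpy_indep s.Q k _ _).le

/-! ### forms -/

/-- the conditions of the types, without the point -/
def ty (s : MSys S M E ι) (c : ℝ) (i : ι) : Part S := (s.lf i).win c

/-- ADMISSIBLE FORMS over the labels of the types are admissible for the window -/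
theorem Tw.adf_iff [Finite ι] {s : MSys S M E ι} (h : Tw s (pcd s.Q)) {c : ℝ} (hc : c ≤ 1)
    {x : ∀ k, FD (S.F k) (Mon M D)} :
    (gaq s.Q D).Adf (s.cnd c) x ↔ (gaq s.Q D).Adf (ty s c) x := by
  constructor
  · intro hx η hη
    filter_upwards [hx η hη] with k hk
    exact ⟨fun i => hk.1 (some i), hk.2⟩
  · intro hx η hη
    have h1 : TyL s c (fun k => (x k).l) := by
      intro i
      have h2 : ∀ η : ℝ, 0 < η → ∀ᶠ k in UF, (x k).l.leak ((s.lf i).win c k) ≤ η * (S.F k).n := by
        intro η hη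
        filter_upwards [hx η hη] with k hk using hk.1 i
      rw [Nul, Metric.tendsto_nhds]
      intro ε hε
      filter_upwards [h2 (ε / 2) (by positivity)] with k hk
      have hp := (S.F k).pos
      rw [Real.dist_eq, sub_zero, abs_of_nonneg (div_nonneg ((x k).l.leak_nonneg _) hp.le), div_lt_iff₀ hp]
      have : ε / 2 * (S.F k).n < ε * (S.F k).n := mul_lt_mul_of_pos_right (by linarith) hp
      linarith
    have h3 := h.leak hc h1
    have h4 : ∀ᶠ k in UF, (x k).l.leak (pcd s.Q k) ≤ η * (S.F k).n := by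
      filter_upwards [h3.eventually (gt_mem_nhds hη)] with k hk
      have hp := (S.F k).pos
      rw [div_lt_iff₀ hp] at hk
      exact hk.le
    filter_upwards [hx η hη, h4] with k hk hk4
    refine ⟨fun i => ?_, hk.2⟩
    rcases i with _ | i
    · exact hk4
    · exact hk.1 i

theorem Tw.optf_iff [Finite ι] {s : MSys S M E ι} (h : Tw s (pcd s.Q)) {c : ℝ} (hc : c ≤ 1)
    {x : ∀ k, FD (S.F k) (Mon M D)} :
    (gaq s.Q D).Optf (s.cnd c) x ↔ (gaq s.Q D).Optf (ty s c) x := by
  constructor
  · rintro ⟨h1, h2⟩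
    exact ⟨(h.adf_iff hc).1 h1, fun y hy => h2 y ((h.adf_iff hc).2 hy)⟩
  · rintro ⟨h1, h2⟩
    exact ⟨(h.adf_iff hc).2 h1, fun y hy => h2 y ((h.adf_iff hc).1 hy)⟩

end

end Pool.Agent.Helper17.CPB
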